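import Pool.Agent.Lib.MP_1a4aff_gt.I3.Transfer

/-! Isospectral sets of closed three-manifolds are compact in the smooth topology. -/

set_option autoImplicit false

open scoped ContDiff Manifold
open Pool.Agent.Lib.MP_1a4aff_gt.Iso3

theorem Pool.Agent.Results.MP_1a4aff_gt.DimThree.result
    (E : Type) [NormedAddCommGroup E] [InnerProductSpace ℝ E] [FiniteDimensional ℝ E]
    [MeasurableSpace E] [BorelSpace E] (hE : Module.finrank ℝ E = 3)
    (M : Type) [TopologicalSpace M] [ChartedSpace E M] [IsManifold 𝓘(ℝ, E) ∞ M] [CompactSpace M]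
    [T2Space M] [ConnectedSpace M] [MeasurableSpace M] [BorelSpace M] (g₀ : Met E M) :
    IsCompact (isospectral g₀) :=
  compact_new hE g₀
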