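import Pool.Agent.Lib.MP_1a4aff_gt.FT.Main

/-! Closed three-manifolds with a given Laplace spectrum fall into finitely many diffeomorphism
types. -/

set_option autoImplicit false

open scoped ContDiff Manifold
open Pool.Agent.Lib.MP_1a4aff_gt.Iso3

theorem Pool.Agent.Results.MP_1a4aff_gt.FiniteTypes.result
    (E : Type) [NormedAddCommGroup E] [InnerProductSpace ℝ E] [FiniteDimensional ℝ E]
    [MeasurableSpace E] [BorelSpace E] (hE : Module.finrank ℝ E = 3) (lam : ℕ → ℝ) :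
    ∃ N : ℕ, ∀ (M : Fin (N + 1) → Type) [∀ i, TopologicalSpace (M i)] [∀ i, ChartedSpace E (M i)]
      [∀ i, IsManifold 𝓘(ℝ, E) ∞ (M i)] [∀ i, CompactSpace (M i)] [∀ i, T2Space (M i)]
      [∀ i, ConnectedSpace (M i)] [∀ i, MeasurableSpace (M i)] [∀ i, BorelSpace (M i)]
      (g : ∀ i, Met E (M i)), (∀ i k, eigen (g i) k = lam k) →
      ∃ i j, i ≠ j ∧ Nonempty (Diffeomorph 𝓘(ℝ, E) 𝓘(ℝ, E) (M i) (M j) ∞) :=
  let ⟨N, h⟩ := Pool.Agent.Lib.MP_1a4aff_gt.I3.FT.bounded E hE lam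
  ⟨N, fun M _ _ _ _ _ _ _ _ g hg => h (fun i => { M := M i, g := g i }) hg⟩
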