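import Pool.Agent.Lib.MP_1a4aff_gt.LH.Main

open Pool.Agent.Lib.MP_1a4aff_gt

/-- On the quotient of an orbit `G / K` of a compact connected semisimple group `G` by a finite
group `Γ` of isometries normalising `G`, the Riemannian metrics invariant under `G` and `Γ` whose
Laplacian has prescribed spectrum form a compact set. -/
theorem Pool.Agent.Results.MP_1a4aff_gt.LocHomog.result {E : Type} [NormedAddCommGroup E]
    [InnerProductSpace ℝ E] [FiniteDimensional ℝ E] [CompleteSpace E] {d : ℕ}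
    (𝔤 : Submodule ℝ (E →L[ℝ] E)) (h𝔤 : IsCompactSemisimple 𝔤) (v : E) (e : Fin d → E →L[ℝ] E)
    (he : IsFrame 𝔤 v e) (Γ : Subgroup (unitary (E →L[ℝ] E))) [Finite Γ] (hΓ : IsDeck 𝔤 v e Γ)
    (hv : ∀ γ ∈ Γ, (γ : E →L[ℝ] E) • v = v → γ = 1) (m : ℝ → ℕ) :
    IsCompact (isoSetQ 𝔤 v e Γ m) :=
  haveI : IsScalarTower ℝ (E →L[ℝ] E) E := ⟨fun _ _ _ => rfl⟩
  let O : Orb (E →L[ℝ] E) E d :=
    { g := 𝔤, skew := h𝔤.1, lie := h𝔤.2.1, perf := h𝔤.2.2.1, cpt := h𝔤.2.2.2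
      adj := fun a x y => ContinuousLinearMap.adjoint_inner_left a y x
      v := v, e := fun i => ⟨e i, he.1 i⟩, li := he.2.1, sp := he.2.2.1, red := he.2.2.2 }
  let C : Cov O := { Γ := Γ, nrm := hΓ.1, orb := hΓ.2.1, red := hΓ.2.2, free := hv }
  haveI : Fintype C.Γ := Fintype.ofFinite Γ
  C.isCompact_metricG m
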